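import Pool.Agent.Lib.MP_a19302.Lower

/-!
For every field `k` there is a `k`-algebra generated by two elements, of Gelfand-Kirillov
dimension exactly two, in which no nilpotent two-sided ideal contains all the others.
-/

set_option autoImplicit false

universe u

theorem Pool.Agent.Results.MP_a19302_al.QuadraticGrowth.result (k : Type u) [Field k] :
    ∃ (A : Type u) (_ : Ring A) (_ : Algebra k A) (x y : A),
      Algebra.adjoin k ({x, y} : Set A) = ⊤ ∧
      (∀ n : ℕ, Module.finrank k ↥((Submodule.span k ({1, x, y} : Set A)) ^ n)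
        ≤ 3 * (n + 1) ^ 2) ∧
      Filter.limsup (fun n : ℕ =>
        Real.log (Module.finrank k ↥((Submodule.span k ({1, x, y} : Set A)) ^ n)) / Real.log n)
          Filter.atTop = 2 ∧
      ¬ ∃ N : TwoSidedIdeal A,
        (∃ m : ℕ, ∀ f : Fin m → A, (∀ i, f i ∈ N) → (List.ofFn f).prod = 0) ∧
        ∀ I : TwoSidedIdeal A,
          (∃ m : ℕ, ∀ f : Fin m → A, (∀ i, f i ∈ I) → (List.ofFn f).prod = 0) → I ≤ N := by
  open Pool.Agent.Lib.MP_a19302 in
  refine ⟨Alg k, inferInstance, inferInstance, gx k, gy k, ?_, growth k,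
    (gk_dim k).limsup_eq, no_greatest⟩
  rw [eq_top_iff, ← Algebra.adjoin_adjoin_coe_preimage (R := k)
    (s := ({Pool.Agent.Lib.MP_a19302.opX k, Pool.Agent.Lib.MP_a19302.opY k} :
      Set (Module.End k (ℕ → ℕ → k))))]
  apply Algebra.adjoin_mono
  rintro ⟨a, ha⟩ hmem
  rcases hmem with h1 | h1
  · left
    exact Subtype.ext h1
  · right
    exact Subtype.ext h1
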